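import Pool.Agent.helper40.FI3.SpecLA3

/-!
# Project fi3 (MP_baa4d7_al), block LA3: row LAF3 (the interface)
-/

set_option autoImplicit false

namespace Pool.Agent.FI3

open Finset

open Pool.Agent.GR Pool.Agent.FI

theorem LAF3_lg {p : ℕ} {M : Ideal (integralClosure ℤ ℂ)} {D : Type} [CommGroup D]
    {X : Type} [Fintype X] {Z Y : Subgroup D} {I : Subgroup (MulAut D)} {β d : X → D → ℂ} {n : D → ℤ}
    {δ : ℤ} {ε : D → ℤ} (hd : LD3 p M Z Y I β d n) (hs : LSg3 p Z Y I n δ ε) (χ : X) {u : D}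
    (hu : u ∉ Y) : ((ε u * n u : ℤ) : ℂ) ≠ 0 ∧ ((ε u * n u : ℤ) : ℂ) * lg Y ε d χ u = β χ u := by
  have h1 : ε u * ε u = 1 := by
    rcases hs.pm u with h | h <;> rw [h] <;> norm_num
  have h1' : (ε u : ℂ) * (ε u : ℂ) = 1 := by exact_mod_cast h1
  have h2 : n u ≠ 0 := by
    intro h
    refine hd.h3b u hu ?_
    rw [h]
    exact dvd_zero _
  have h3 : ε u ≠ 0 := by
    intro h
    rw [h] at h1
    simp at h1
  refine ⟨?_, ?_⟩
  · exact_mod_cast mul_ne_zero h3 h2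
  · rw [lg_of_not_mem hu, hd.h3a χ u hu]
    push_cast
    linear_combination ((n u : ℂ) * d χ u) * h1'

theorem LAF3_sub {p : ℕ} {M : Ideal (integralClosure ℤ ℂ)} {D : Type} [CommGroup D] [Fintype D]
    {X : Type} [Fintype X] {Z Y : Subgroup D} {I : Subgroup (MulAut D)} {β d : X → D → ℂ} {n : D → ℤ}
    {δ : ℤ} {ε : D → ℤ} (hd : LD3 p M Z Y I β d n) (hs : LSg3 p Z Y I n δ ε) (l₀ : D →* ℂˣ) :
    {χ : X | ∀ z ∈ Z, ∀ u, β χ (z * u) = lv l₀ z * β χ u} ⊆ (lX Z l₀ (lg Y ε d) : Set X) := by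
  intro χ hχ
  rw [Finset.mem_coe, mem_lX]
  intro z hz u
  have hzY : z ∈ Y := hd.zy hz
  by_cases hu : u ∈ Y
  · rw [lg_of_mem (Y.mul_mem hzY hu), lg_of_mem hu, mul_zero]
  · have hzu : z * u ∉ Y := fun h => hu ((Subgroup.mul_mem_cancel_left Y hzY).1 h)
    obtain ⟨h1, h2⟩ := LAF3_lg hd hs χ hu
    obtain ⟨-, h4⟩ := LAF3_lg hd hs χ hzu
    rw [hs.zi z hz u hu] at h4
    have h5 : β χ (z * u) = lv l₀ z * β χ u := hχ z hz u
    refine mul_left_cancel₀ h1 ?_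
    rw [h4, h5, ← h2]
    ring

theorem LAF3_aux (hLEP3 : LEP3_stmt) (hLGG3 : LGG3_stmt) (hLCA3 : LCA3_stmt) (hLCB3 : LCB3_stmt)
    (p : ℕ) (M : Ideal (integralClosure ℤ ℂ)) (D : Type) [CommGroup D] [Fintype D]
    (X : Type) [Fintype X] (Z Y : Subgroup D) (I : Subgroup (MulAut D)) (β d : X → D → ℂ) (n : D → ℤ)
    (h : LAD3 p M Z Y I β d n) : LAC3 M Z Y I β d := by
  let : Fintype (D →* ℂˣ) := Fintype.ofFinite _
  have hd : LD3 p M Z Y I β d n :=
    { set := h.set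
      odd := h.odd
      pg := h.pg
      zy := h.zy
      ne := h.ne
      cop := h.cop
      fz := h.fz
      fr := h.fr
      h1 := h.h1
      h2 := h.h2
      h3a := h.h3a
      h3b := h.h3b
      h3c := h.h3c
      h3d := h.h3d
      h4a := by
        intro u a hu ha
        have h1 := h.h4a u a hu ha
        rwa [finsum_eq_sum_of_fintype] at h1
      h4b := by
        intro u hu
        have h1 := h.h4b u hu
        rwa [finsum_eq_sum_of_fintype] at h1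
      h5 := h.h5
      h6 := h.h6
      h7 := h.h7 }
  obtain ⟨δ, ε, hs⟩ := hLEP3 p M D X Z Y I β d n hd
  have hG : LG3 p Z Y I (lg Y ε d) := hLGG3 p M D X Z Y I β d n δ ε hd hs
  have hle : ∀ l₀ : D →* ℂˣ, {χ : X | ∀ z ∈ Z, ∀ u, β χ (z * u) = lv l₀ z * β χ u}.ncard ≤
      (lX Z l₀ (lg Y ε d)).card := by
    intro l₀
    have h2 := Set.ncard_le_ncard (LAF3_sub hd hs l₀) (Finset.finite_toSet _)
    rwa [Set.ncard_coe_finset] at h2
  refine ⟨?_, ?_⟩
  · intro l₀ _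
    exact le_trans (Nat.mul_le_mul_left _ (hle l₀)) (hLCA3 p D X Z Y I (lg Y ε d) l₀ hG)
  · intro l₀ _ heq χ u hχ hu hin
    have h1 := hLCA3 p D X Z Y I (lg Y ε d) l₀ hG
    have h2 := Nat.mul_le_mul_left (Nat.card I) (hle l₀)
    have h3 : Nat.card I * (lX Z l₀ (lg Y ε d)).card = Z.relIndex Y * ((Y.index - 1) + Nat.card I ^ 2) := by
      refine le_antisymm h1 ?_
      rw [← heq]
      exact h2
    have hχ' : χ ∈ lX Z l₀ (lg Y ε d) := Finset.mem_coe.mp (LAF3_sub hd hs l₀ hχ)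
    refine hLCB3 p M D X Z Y I (lg Y ε d) l₀ h.set hG h3 χ hχ' u hu ?_
    rw [lg_of_not_mem hu]
    exact hin.mul_left h.set (IntAt.intCast h.set _)

theorem LAF3 (hLEP3 : LEP3_stmt) (hLGG3 : LGG3_stmt) (hLCA3 : LCA3_stmt) (hLCB3 : LCB3_stmt) :
    LAF3_stmt := by
  intro p M D _ _ X _ Z Y I β d n h
  let : Fintype D := Fintype.ofFinite D
  let : Fintype X := Fintype.ofFinite X
  exact @LAF3_aux hLEP3 hLGG3 hLCA3 hLCB3 p M D { (inferInstance : Group D) with mul_comm := h.com } _ X _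
    Z Y I β d n h

end Pool.Agent.FI3
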